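import Pool.Agent.PFD.StmtsD4

/-!
# Squad PFD, row RTC: rules for the relative trace
-/

set_option autoImplicit false

open scoped BigOperators

noncomputable section

namespace Pool.Agent.PFD.D4.H91

open Pool.Agent.PFC.B1 (BiM FS Sep Split)

/-- row RTC -/
theorem rtc : RtcStmt := by
  intro R B A N _ _ _ _ _ _ j pr s
  refine ⟨?_, ?_, ?_⟩
  · intro b hb a
    unfold RF.rt
    have h1 : ∀ k, a * (s.x k * b * s.y k) =
        ∑ l, s.x l * b * (j (pr (s.y l * a * s.x k)) * s.y k) := by
      intro k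
      rw [← mul_assoc, ← mul_assoc]
      conv_lhs => rw [← s.e1 (a * s.x k)]
      rw [Finset.sum_mul, Finset.sum_mul]
      refine Finset.sum_congr rfl fun l _ => ?_
      rw [mul_assoc (s.x l), hb, ← mul_assoc (s.x l), mul_assoc (s.x l * b), mul_assoc (s.y l)]
    rw [Finset.mul_sum, Finset.sum_congr rfl fun k _ => h1 k, Finset.sum_comm, Finset.sum_mul]
    refine Finset.sum_congr rfl fun l _ => ?_
    rw [← Finset.mul_sum, s.e2, ← mul_assoc]
  · intro z b hz
    unfold RF.rt
    rw [Finset.mul_sum]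
    refine Finset.sum_congr rfl fun k _ => ?_
    rw [← mul_assoc, ← hz]
    simp only [mul_assoc]
  · intro X _ _ β hβ a
    have h1 : ∀ k, β (a * s.x k) (s.y k) =
        ∑ l, β (s.x l) (j (pr (s.y l * a * s.x k)) * s.y k) := by
      intro k
      conv_lhs => rw [← s.e1 (a * s.x k)]
      rw [map_sum, LinearMap.sum_apply]
      refine Finset.sum_congr rfl fun l _ => ?_
      rw [hβ, mul_assoc (s.y l)]
    rw [Finset.sum_congr rfl fun k _ => h1 k, Finset.sum_comm]
    refine Finset.sum_congr rfl fun l _ => ?_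
    rw [← map_sum, s.e2]

end Pool.Agent.PFD.D4.H91
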