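import Pool.Agent.Helper91_PFD.CPA

/-!
# Squad PFD, row CPZ: the centre lifts
-/

set_option autoImplicit false

open scoped BigOperators

noncomputable section

namespace Pool.Agent.PFD.D3.H91

open Pool.Agent.PFD.CP

/-- row CPZ -/
theorem cpz : CpzStmt := by
  intro R F V E S _ _ _ _ _ ℓ c o φ W _ z _ _ s fb hfb hE a ha
  classical
  rw [Subalgebra.mem_center_iff] at ha
  -- the annihilators
  have h1 : ∀ e, ∀ u : V, MonoidAlgebra.of F V (φ e u) * a.f e = MonoidAlgebra.of F V u * a.f e := by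
    intro e u
    have h2 := congrArg (fun x : CP (D0 φ z) => x.f e) (ha (CP.iS (D0 φ z) (MonoidAlgebra.of F V u)))
    have h3 : (CP.iS (D0 φ z) (MonoidAlgebra.of F V u) * a).f e =
        MonoidAlgebra.of F V u * a.f e := by
      rw [CP.iS_apply, CP.sn_mul_f, (D0 φ z).one_left, Units.val_one, one_smul, map_one, inv_one,
        one_mul]
      rfl
    have h4 : (a * CP.iS (D0 φ z) (MonoidAlgebra.of F V u)).f e =
        a.f e * MonoidAlgebra.of F V (φ e u) := by
      conv_lhs => rw [← CP.sum_sn a]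
      rw [Finset.sum_mul, CP.sum_f, Finset.sum_eq_single e]
      · rw [sn_iS, CP.sn_f, if_pos rfl]
        show a.f e * acV F φ e (MonoidAlgebra.single u 1) = _
        rw [acV_single]
        rfl
      · intro g _ hg
        rw [sn_iS, CP.sn_f, if_neg (Ne.symm hg)]
      · intro h
        exact absurd (Finset.mem_univ _) h
    have h5 : MonoidAlgebra.of F V u * a.f e = a.f e * MonoidAlgebra.of F V (φ e u) := by
      rw [← h3, ← h4]
      exact h2
    rw [h5, mul_comm]
  choose y hy1 hy2 using fun e => s.ann e (a.f e) (h1 e)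
  let D := D1 o z s
  let b0 : CP D := ⟨y⟩
  have hb0 : ∀ x, CP.iS D x * b0 = b0 * CP.iS D x := by
    intro x
    rw [← CP.sum_sn b0, Finset.mul_sum, Finset.sum_mul]
    refine Finset.sum_congr rfl fun e _ => ?_
    rw [iS_sn, sn_iS]
    congr 1
    show x * y e = y e * s.act e x
    rw [mul_comm (y e), hy2]
  have hq0 : fb.q b0 = a := by
    apply CP.ext
    funext e
    rw [hfb]
    exact hy1 e
  -- the average
  have hcard : IsUnit ((Fintype.card E : ℕ) : R) := by
    apply c.loc
    rw [map_natCast]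
    exact hE
  obtain ⟨r, hr⟩ := hcard.exists_left_inv
  let b1 : CP D := ∑ g, CP.n D g * b0 * ni D g
  have hb1s : ∀ x, CP.iS D x * b1 = b1 * CP.iS D x := by
    intro x
    show CP.iS D x * ∑ g, CP.n D g * b0 * ni D g = (∑ g, CP.n D g * b0 * ni D g) * CP.iS D x
    rw [Finset.mul_sum, Finset.sum_mul]
    refine Finset.sum_congr rfl fun g _ => ?_
    have e1 : D.act g (D.act g⁻¹ x) = x := by
      rw [← AlgEquiv.mul_apply, ← map_mul, mul_inv_cancel, map_one]
      rfl
    have e2 : CP.iS D x * CP.n D g = CP.n D g * CP.iS D (D.act g⁻¹ x) := by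
      rw [CP.n_mul_iS, e1]
    have e3 : ni D g * CP.iS D x = CP.iS D (D.act g⁻¹ x) * ni D g := by
      rw [iS_ni, e1]
    calc CP.iS D x * (CP.n D g * b0 * ni D g)
        = CP.iS D x * CP.n D g * b0 * ni D g := by simp only [mul_assoc]
      _ = CP.n D g * (CP.iS D (D.act g⁻¹ x) * b0) * ni D g := by rw [e2]; simp only [mul_assoc]
      _ = CP.n D g * b0 * (CP.iS D (D.act g⁻¹ x) * ni D g) := by rw [hb0]; simp only [mul_assoc]
      _ = CP.n D g * b0 * ni D g * CP.iS D x := by rw [← e3]; simp only [mul_assoc]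
  have hb1n : ∀ h, CP.n D h * b1 = b1 * CP.n D h := by
    intro h
    show CP.n D h * ∑ g, CP.n D g * b0 * ni D g = (∑ g, CP.n D g * b0 * ni D g) * CP.n D h
    rw [Finset.mul_sum, Finset.sum_mul, ← Equiv.sum_comp (Equiv.mulLeft h)
      (fun g => CP.n D g * b0 * ni D g * CP.n D h)]
    refine Finset.sum_congr rfl fun g _ => ?_
    show CP.n D h * (CP.n D g * b0 * ni D g) = CP.n D (h * g) * b0 * ni D (h * g) * CP.n D h
    rw [mul_assoc _ (ni D (h * g)), ni_mul_n, mul_smul_comm, ← mul_assoc, ← mul_assoc,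
      CP.n_mul_n, smul_mul_assoc, smul_mul_assoc]
  refine ⟨r • b1, mem_center D _ ?_ ?_, ?_⟩
  · intro x
    rw [mul_smul_comm, smul_mul_assoc, hb1s]
  · intro e
    rw [mul_smul_comm, smul_mul_assoc, hb1n]
  · have h2 : fb.q b1 = (Fintype.card E) • a := by
      show fb.q (∑ g, CP.n D g * b0 * ni D g) = _
      rw [map_sum]
      have h3 : ∀ g, fb.q (CP.n D g * b0 * ni D g) = a := by
        intro g
        rw [map_mul, map_mul, hq0, ha, mul_assoc, ← map_mul, n_ni, map_one, mul_one]
      rw [Finset.sum_congr rfl fun g _ => h3 g, Finset.sum_const, Finset.card_univ]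
    rw [Algebra.smul_def, map_mul, fb.sc, h2, ← Algebra.smul_def, ← Nat.cast_smul_eq_nsmul F,
      smul_smul, ← map_natCast c.κ, ← map_mul, hr, map_one, one_smul]

end Pool.Agent.PFD.D3.H91
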