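import Pool.Agent.PFD.StmtsD2b

/-!
# Squad PFD, row FPG: the frame of `Γ` for `W × W`
-/

set_option autoImplicit false

open scoped BigOperators

noncomputable section

namespace Pool.Agent.PFD.D2b.H91

open MulOpposite
open Pool.Agent.PFC.B1 (BiM FS)
open Pool.Agent.PFD.D2

variable {R Γ W I : Type} [CommRing R] [Ring Γ] [Algebra R Γ] [CommGroup W] [Fintype W]
  [Fintype I]

/-- the action of `W × W` on `I × W` -/
def act (D : WFS R Γ W I) : MulAction (W × W) (I × W) where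
  smul := fun g t => (t.1, D.ph t.1 g.1 * t.2 * g.2⁻¹)
  one_smul := fun t => by
    show (t.1, D.ph t.1 1 * t.2 * (1 : W)⁻¹) = t
    rw [map_one, one_mul, inv_one, mul_one]
  mul_smul := fun g h t => by
    show (t.1, D.ph t.1 (g.1 * h.1) * t.2 * (g.2 * h.2)⁻¹) =
      (t.1, D.ph t.1 g.1 * (D.ph t.1 h.1 * t.2 * h.2⁻¹) * g.2⁻¹)
    rw [map_mul, mul_inv_rev]
    simp only [mul_assoc]

/-- the dual families are dual -/
theorem dual [DecidableEq (I × W)] (D : WFS R Γ W I) (t s : I × W) :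
    D.lam (D.om t.2⁻¹ * D.cf' t.1 * (D.cf s.1 * D.om s.2)) = if t = s then 1 else 0 := by
  by_cases h : t = s
  · rw [if_pos h, h]
    exact D.d1 s.1 s.2
  · rw [if_neg h]
    apply D.d0
    by_contra hc
    push Not at hc
    exact h (Prod.ext hc.1 hc.2)

/-- row FPG -/
theorem fpg : FpgStmt := by
  intro R Γ W I _ _ _ _ _ _ D
  classical
  letI := act D
  have hsm : ∀ (g : W × W) (t : I × W), g • t = (t.1, D.ph t.1 g.1 * t.2 * g.2⁻¹) :=
    fun _ _ => rfl
  refine ⟨act D, fun t => D.lam ∘ₗ LinearMap.mulLeft R (D.om t.2⁻¹ * D.cf' t.1),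
    fun u v i w => rfl, fun t x => rfl, ?_, ?_, ?_⟩
  · intro g t
    show D.cf (g • t).1 * D.om (g • t).2 = D.om g.1 * (D.cf t.1 * D.om t.2 * D.om g.2⁻¹)
    rw [hsm, map_mul, map_mul]
    simp only [← mul_assoc]
    rw [D.nrm]
  · intro g t n
    have hb : ∀ s : I × W, (wrp D.om (regB R Γ) g) (D.cf s.1 * D.om s.2) =
        D.cf (g • s).1 * D.om (g • s).2 := by
      intro s
      show D.om g.1 * (D.cf s.1 * D.om s.2 * D.om g.2⁻¹) = _
      rw [hsm, map_mul, map_mul]
      simp only [← mul_assoc]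
      rw [D.nrm]
    have key : ∀ s : I × W, (D.lam ∘ₗ LinearMap.mulLeft R (D.om (g • t).2⁻¹ * D.cf' (g • t).1))
        ((wrp D.om (regB R Γ) g) (D.cf s.1 * D.om s.2)) =
        (D.lam ∘ₗ LinearMap.mulLeft R (D.om t.2⁻¹ * D.cf' t.1)) (D.cf s.1 * D.om s.2) := by
      intro s
      rw [hb]
      show D.lam (D.om (g • t).2⁻¹ * D.cf' (g • t).1 * (D.cf (g • s).1 * D.om (g • s).2)) =
        D.lam (D.om t.2⁻¹ * D.cf' t.1 * (D.cf s.1 * D.om s.2))
      rw [dual, dual]
      by_cases h : t = s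
      · rw [if_pos h, if_pos (by rw [h])]
      · rw [if_neg h, if_neg]
        intro h'
        exact h (MulAction.injective g h')
    have hn : n = ∑ s : I × W, D.lam (D.om s.2⁻¹ * D.cf' s.1 * n) • (D.cf s.1 * D.om s.2) := by
      rw [Fintype.sum_prod_type]
      exact (D.h1 n).symm
    conv_lhs => rw [hn]
    conv_rhs => rw [hn]
    rw [map_sum, map_sum, map_sum]
    refine Finset.sum_congr rfl fun s _ => ?_
    rw [map_smul, map_smul, map_smul, key]
  · intro n
    rw [Fintype.sum_prod_type]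
    exact D.h1 n

end Pool.Agent.PFD.D2b.H91
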