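import Pool.Agent.Helper91_PFD.FPG

/-!
# Squad PFD, row FPX: the bimodule `X` has a permutation frame for `W × W`
-/

set_option autoImplicit false

open scoped BigOperators

noncomputable section

namespace Pool.Agent.PFD.D2b.H91

open MulOpposite
open Pool.Agent.PFC.B1 (BiM FS)
open Pool.Agent.PFD.D2

/-- row FPX -/
theorem fpx (fpf : FpfStmt) (fpg : FpgStmt) : FpxStmt := by
  intro R Γ W I Ω _ _ _ _ _ _ _ _ D BX hX p
  classical
  obtain ⟨iact, c, hact, hc, hfr1, hfr2, hfr3⟩ := fpg R Γ W I D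
  refine ⟨?_, fpf R (W × W) Γ (I × W) _ _ c p ⟨hfr1, hfr2, hfr3⟩⟩
  -- the action of `W × W` on the functions
  have hval : ∀ (g : W × W) (f : I × Ω → Γ) (x : I × Ω), (wrp D.om BX g f) x =
      wrp D.om (regB R Γ) (D.ph x.1 g.1, g.2) (f (x.1, (D.ph x.1 g.1)⁻¹ • x.2)) := by
    rintro g f ⟨j, ω⟩
    show BX.lm (D.om g.1) (BX.rm (op (D.om g.2⁻¹)) f) (j, ω) =
      D.om (D.ph j g.1) * (f (j, (D.ph j g.1)⁻¹ • ω) * D.om g.2⁻¹)
    rw [hX.1]
    have h1 : ∀ i w, D.lam (D.om w⁻¹ * D.cf' j * D.om g.1 * D.cf i) =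
        if ((j, w) : I × W) = (i, D.ph i g.1) then 1 else 0 := by
      intro i w
      rw [← dual D (j, w) (i, D.ph i g.1), mul_assoc _ (D.om g.1), D.nrm]
    rw [Finset.sum_eq_single j, Finset.sum_eq_single (D.ph j g.1)]
    · rw [h1, if_pos rfl, one_smul, hX.2]
    · intro w _ hw
      rw [h1, if_neg, zero_smul]
      intro h
      exact hw (congrArg Prod.snd h)
    · intro h
      exact absurd (Finset.mem_univ _) h
    · intro i _ hi
      refine Finset.sum_eq_zero fun w _ => ?_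
      rw [h1, if_neg, zero_smul]
      intro h
      exact hi (congrArg Prod.fst h).symm
    · intro h
      exact absurd (Finset.mem_univ _) h
  letI aT : MulAction (W × W) ((I × Ω) × (I × W)) :=
    { smul := fun g t => ((t.1.1, D.ph t.1.1 g.1 • t.1.2), ((D.ph t.1.1 g.1, g.2) : W × W) • t.2)
      one_smul := fun t => by
        show ((t.1.1, D.ph t.1.1 1 • t.1.2), ((D.ph t.1.1 1, 1) : W × W) • t.2) = t
        rw [map_one, one_smul]
        rw [show ((1, 1) : W × W) = 1 from rfl, one_smul]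
      mul_smul := fun g h t => by
        show ((t.1.1, D.ph t.1.1 (g.1 * h.1) • t.1.2),
          ((D.ph t.1.1 (g.1 * h.1), g.2 * h.2) : W × W) • t.2) =
          ((t.1.1, D.ph t.1.1 g.1 • D.ph t.1.1 h.1 • t.1.2),
            ((D.ph t.1.1 g.1, g.2) : W × W) • ((D.ph t.1.1 h.1, h.2) : W × W) • t.2)
        rw [map_mul, mul_smul, smul_smul ((D.ph t.1.1 g.1, g.2) : W × W), Prod.mk_mul_mk] }
  have hsm : ∀ (g : W × W) (t : (I × Ω) × (I × W)), g • t =
      ((t.1.1, D.ph t.1.1 g.1 • t.1.2), ((D.ph t.1.1 g.1, g.2) : W × W) • t.2) := fun _ _ => rfl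
  refine fpf R (W × W) (I × Ω → Γ) ((I × Ω) × (I × W)) (wrp D.om BX)
    (fun t => Pi.single t.1 (D.cf t.2.1 * D.om t.2.2))
    (fun t => c t.2 ∘ₗ LinearMap.proj t.1) p ⟨?_, ?_, ?_⟩
  · rintro g ⟨⟨j, ω⟩, t⟩
    rw [hsm]
    funext x
    rw [hval]
    show (Pi.single ((j, D.ph j g.1 • ω) : I × Ω)
      (D.cf (((D.ph j g.1, g.2) : W × W) • t).1 * D.om (((D.ph j g.1, g.2) : W × W) • t).2) :
        I × Ω → Γ) x = wrp D.om (regB R Γ) (D.ph x.1 g.1, g.2)
      ((Pi.single ((j, ω) : I × Ω) (D.cf t.1 * D.om t.2) : I × Ω → Γ)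
        (x.1, (D.ph x.1 g.1)⁻¹ • x.2))
    by_cases h : x = (j, D.ph j g.1 • ω)
    · subst h
      rw [Pi.single_eq_same]
      show _ = wrp D.om (regB R Γ) (D.ph j g.1, g.2)
        ((Pi.single ((j, ω) : I × Ω) (D.cf t.1 * D.om t.2) : I × Ω → Γ)
          (j, (D.ph j g.1)⁻¹ • D.ph j g.1 • ω))
      rw [inv_smul_smul, Pi.single_eq_same]
      exact hfr1 _ _
    · rw [Pi.single_eq_of_ne h, Pi.single_eq_of_ne, map_zero]
      intro h'
      apply h
      have h1 : x.1 = j := congrArg Prod.fst h'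
      have h2 : (D.ph x.1 g.1)⁻¹ • x.2 = ω := congrArg Prod.snd h'
      refine Prod.ext h1 ?_
      show x.2 = D.ph j g.1 • ω
      rw [← h2, ← h1, smul_inv_smul]
  · rintro g ⟨⟨j, ω⟩, t⟩ f
    rw [hsm]
    show c (((D.ph j g.1, g.2) : W × W) • t) ((wrp D.om BX g f) (j, D.ph j g.1 • ω)) =
      c t (f (j, ω))
    rw [hval]
    show c (((D.ph j g.1, g.2) : W × W) • t) (wrp D.om (regB R Γ) (D.ph j g.1, g.2)
      (f (j, (D.ph j g.1)⁻¹ • D.ph j g.1 • ω))) = c t (f (j, ω))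
    rw [inv_smul_smul, hfr2]
  · intro f
    rw [Fintype.sum_prod_type]
    funext x
    rw [Finset.sum_apply, Finset.sum_eq_single x]
    · rw [Finset.sum_apply]
      have h1 : ∀ t : I × W, ((c t ∘ₗ LinearMap.proj x) f •
          (Pi.single x (D.cf t.1 * D.om t.2) : I × Ω → Γ)) x =
          c t (f x) • (D.cf t.1 * D.om t.2) := by
        intro t
        rw [Pi.smul_apply, Pi.single_eq_same]
        rfl
      rw [Finset.sum_congr rfl fun t _ => h1 t]
      exact hfr3 (f x)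
    · intro y _ hy
      rw [Finset.sum_apply]
      refine Finset.sum_eq_zero fun t _ => ?_
      show (c t ∘ₗ LinearMap.proj y) f •
        (Pi.single y (D.cf t.1 * D.om t.2) : I × Ω → Γ) x = 0
      rw [Pi.single_eq_of_ne hy.symm, smul_zero]
    · intro h
      exact absurd (Finset.mem_univ _) h

end Pool.Agent.PFD.D2b.H91
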