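import Pool.Agent.PFD.StmtsD1

/-!
# Squad PFD, row NID: the network identity
-/

set_option autoImplicit false

open scoped BigOperators

noncomputable section

namespace Pool.Agent.PFD.H91

open Pool.Agent.PFC.B1

theorem G6_add {R B A I J N : Type} [CommRing R] [Ring B] [Algebra R B] [Ring A] [Algebra R A]
    [Fintype I] [Fintype J] [Fintype N] (D : Net R B A I J N)
    (W W' : B → B → B → B → B → B → R) :
    D.G6 (fun a1 a2 a3 a4 a5 a6 => W a1 a2 a3 a4 a5 a6 + W' a1 a2 a3 a4 a5 a6) =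
      D.G6 W + D.G6 W' := by
  unfold Net.G6
  simp only [add_mul, Finset.sum_add_distrib]

/-- row NID -/
theorem nid (sum : SumStmt) (rot : RotStmt) (ro6 : Ro6Stmt) (res : ResStmt) (gbz : GbzStmt)
    (gb1 : Gb1Stmt) (gb3 : Gb3Stmt) (s1a : S1aStmt) (s1b : S1bStmt) (w13 : W13Stmt) :
    NidStmt := by
  intro K B A I J N _ _ _ _ _ _ _ _ _ D v De hv
  have hop : D.op.Der v De := ⟨hv.der, hv.cen, hv.div⟩
  obtain ⟨s1, s2, s3⟩ := sum K B A I J N D v De hv
  have hs1 := s1 D.x D.y D.x D.y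
  have hgz := gbz K B A I J N D De hv.cen
  have hg1 := gb1 K B A I J N D v
  have hg3 := (gb3 K B A I J N D v).trans (gb1 K B A I J N D.op v)
  have ha := s1a K B A I J N D v De hv
  have ha' : D.op.S1 v + D.S1 v = - (D.op.e1 v + D.op.E De) := s1a K B A I J N D.op v De hop
  obtain ⟨hb1, hb2⟩ := s1b K B A I J N D v De hv
  have hw := w13 K B A I J N D v De hv
  have hr := rot K B A I J N D
  have r2 := hr D.x D.y D.x D.y (I1 K B) v (I1 K B) (I1 K B)
  have r3 := (hr D.x D.y D.x D.y (I1 K B) (I1 K B) v (I1 K B)).trans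
    (hr D.x D.y D.y D.x (I1 K B) v (I1 K B) (I1 K B))
  have r4 := ((hr D.x D.y D.x D.y (I1 K B) (I1 K B) (I1 K B) v).trans
    (hr D.x D.y D.y D.x (I1 K B) (I1 K B) v (I1 K B))).trans
    (hr D.y D.x D.y D.x (I1 K B) v (I1 K B) (I1 K B))
  have h6 := ro6 K B A I J N D
  have p5 := h6 v (I1 K B) (I1 K B) (I1 K B) (I1 K B) (I1 K B)
  have p3 := h6 (I1 K B) (I1 K B) (I1 K B) (I1 K B) v (I1 K B)
  have m6 := h6 (I1 K B) v (I1 K B) (I1 K B) (I1 K B) (I1 K B)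
  have m4 := h6 (I1 K B) (I1 K B) (I1 K B) (I1 K B) (I1 K B) v
  have hres := res K B A I J N D
  have e1 : D.H4 D.x D.y D.x D.y v (I1 K B) (I1 K B) (I1 K B) =
      D.GB v (I1 K B) (I1 K B) (I1 K B) +
        D.G6 (D.w6 v (I1 K B) (I1 K B) (I1 K B) (I1 K B) (I1 K B)) := by
    rw [hres]
    congr 2
    funext a1 a2 a3 a4 a5 a6
    simp only [Net.w6, LinearMap.id_apply, mul_assoc]
  have e2 : D.H4 D.x D.y D.x D.y (I1 K B) v (I1 K B) (I1 K B) =
      D.GB (I1 K B) v (I1 K B) (I1 K B) +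
        (D.G6 (D.w6 (I1 K B) v (I1 K B) (I1 K B) (I1 K B) (I1 K B)) +
          D.G6 (D.w6 (I1 K B) (I1 K B) v (I1 K B) (I1 K B) (I1 K B))) := by
    rw [hres, ← G6_add]
    congr 2
    funext a1 a2 a3 a4 a5 a6
    simp only [Net.w6, LinearMap.id_apply, mul_assoc, hv.der, add_mul, mul_add, map_add]
  have e3 : D.H4 D.x D.y D.x D.y (I1 K B) (I1 K B) v (I1 K B) =
      D.GB (I1 K B) (I1 K B) v (I1 K B) +
        D.G6 (D.w6 (I1 K B) (I1 K B) (I1 K B) v (I1 K B) (I1 K B)) := by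
    rw [hres]
    congr 2
    funext a1 a2 a3 a4 a5 a6
    simp only [Net.w6, LinearMap.id_apply, mul_assoc]
  have e4 : D.H4 D.x D.y D.x D.y (I1 K B) (I1 K B) (I1 K B) v =
      D.GB (I1 K B) (I1 K B) (I1 K B) v +
        (D.G6 (D.w6 (I1 K B) (I1 K B) (I1 K B) (I1 K B) v (I1 K B)) +
          D.G6 (D.w6 (I1 K B) (I1 K B) (I1 K B) (I1 K B) (I1 K B) v)) := by
    rw [hres, ← G6_add]
    congr 2
    funext a1 a2 a3 a4 a5 a6
    simp only [Net.w6, LinearMap.id_apply, mul_assoc, hv.der, add_mul, mul_add, map_add]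
  have e0 : D.H4 D.x D.y D.x D.y (Lz K De) (I1 K B) (I1 K B) (I1 K B) =
      D.GB (Lz K De) (I1 K B) (I1 K B) (I1 K B) +
        D.G6 (D.w6 (Lz K De) (I1 K B) (I1 K B) (I1 K B) (I1 K B) (I1 K B)) := by
    rw [hres]
    congr 2
    funext a1 a2 a3 a4 a5 a6
    simp only [Net.w6, LinearMap.id_apply, LinearMap.mulLeft_apply, mul_assoc]
  have h2 : (2 : K) ≠ 0 := two_ne_zero
  have hS : D.S1 v + D.op.S1 v = 0 := by
    have h3 : (2 : K) * (D.S1 v + D.op.S1 v) = 0 := by linear_combination ha + ha' - hb1 - hb2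
    exact (mul_eq_zero.1 h3).resolve_left h2
  have hP5 := p5.symm
  have hP3 := (p5.trans p3).symm
  have hM6 := m6.symm
  have hM4 := (m6.trans m4).symm
  have hpm : D.G6 (D.w6 v (I1 K B) (I1 K B) (I1 K B) (I1 K B) (I1 K B)) +
      D.G6 (D.w6 (I1 K B) v (I1 K B) (I1 K B) (I1 K B) (I1 K B)) = D.E De := by
    linear_combination 2 * hS + 2 * hg1 + 2 * hg3 + hgz - s2 + hM4 - hP3 - hP5 - hM6 - hw - r3 +
      r2 + r4 + e1 + e3 - e2 - e4
  linear_combination -3 * hpm - hP3 - hM4 - hP5 - hM6 + s3 + hgz + e0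

end Pool.Agent.PFD.H91
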