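import Pool.Agent.PFD.StmtsD1

/-!
# Squad PFD, row RTU: the relative trace is intrinsic
-/

set_option autoImplicit false

open scoped BigOperators

noncomputable section

namespace Pool.Agent.PFD.H91

open Pool.Agent.PFC.B1

/-- row RTU -/
theorem rtu : RtuStmt := by
  intro R B A N N' _ _ _ _ _ _ _ j pr s s' a ha
  refine ⟨?_, ?_, ?_⟩
  · unfold RF.rt
    have h1 : ∀ k, s.x k * a * s.y k =
        ∑ l, s'.x l * a * (j (pr (s'.y l * s.x k)) * s.y k) := by
      intro k
      conv_lhs => rw [← s'.e1 (s.x k)]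
      rw [Finset.sum_mul, Finset.sum_mul]
      refine Finset.sum_congr rfl fun l _ => ?_
      rw [mul_assoc (s'.x l), ha, ← mul_assoc (s'.x l), mul_assoc (s'.x l * a)]
    rw [Finset.sum_congr rfl fun k _ => h1 k, Finset.sum_comm]
    refine Finset.sum_congr rfl fun l _ => ?_
    rw [← Finset.mul_sum, s.e2]
  · intro c
    unfold RF.rt
    have h1 : ∀ k, c * (s.x k * a * s.y k) =
        ∑ l, s.x l * a * (j (pr (s.y l * c * s.x k)) * s.y k) := by
      intro k
      rw [← mul_assoc, ← mul_assoc]
      conv_lhs => rw [← s.e1 (c * s.x k)]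
      rw [Finset.sum_mul, Finset.sum_mul]
      refine Finset.sum_congr rfl fun l _ => ?_
      rw [mul_assoc (s.x l), ha, ← mul_assoc (s.x l), mul_assoc (s.x l * a), mul_assoc (s.y l)]
    rw [Finset.mul_sum, Finset.sum_congr rfl fun k _ => h1 k, Finset.sum_comm, Finset.sum_mul]
    refine Finset.sum_congr rfl fun l _ => ?_
    rw [← Finset.mul_sum, s.e2, ← mul_assoc]
  · intro w hw
    unfold RF.rt
    rw [Finset.mul_sum]
    refine Finset.sum_congr rfl fun k _ => ?_
    rw [← mul_assoc, ← hw]
    simp only [mul_assoc]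

end Pool.Agent.PFD.H91
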