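import Pool.Agent.PFD.StmtsD1

/-!
# Squad PFD, row RTX: the relative Frobenius system of the family
-/

set_option autoImplicit false

open scoped BigOperators

noncomputable section

namespace Pool.Agent.PFD.H91

open Pool.Agent.PFC.B1

section

variable {R B A I J N : Type} [CommRing R] [Ring B] [Algebra R B] [Ring A] [Algebra R A]
    [Fintype I] [Fintype J] [Fintype N] (D : Net R B A I J N)

theorem jpr2 (a : A) : D.j (D.pr a) = ∑ l, D.d.lam (a * D.j (D.c.b l)) • D.j (D.c.b' l) := by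
  conv_lhs => rw [← D.c.h2 (D.pr a)]
  rw [map_sum]
  refine Finset.sum_congr rfl fun l _ => ?_
  rw [map_smul, D.ort, D.pr_r]

theorem jpr1 (a : A) : D.j (D.pr a) = ∑ l, D.d.lam (D.j (D.c.b' l) * a) • D.j (D.c.b l) := by
  conv_lhs => rw [← D.c.h1 (D.pr a)]
  rw [map_sum]
  refine Finset.sum_congr rfl fun l _ => ?_
  rw [map_smul, D.ort, D.pr_l]

end

/-- row RTX -/
theorem rtx : RtxStmt := by
  intro R B A I J N _ _ _ _ _ _ _ _ D
  refine ⟨{ x := fun o => o.elim 1 (fun p => D.u p.2 * D.x p.1)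
            y := fun o => o.elim 1 (fun p => D.y p.1 * D.u' p.2)
            e1 := fun a => ?_
            e2 := fun a => ?_ }, fun a => ?_⟩
  · rw [Fintype.sum_option, Fintype.sum_prod_type]
    show 1 * D.j (D.pr (1 * a)) + ∑ r, ∑ i, D.u i * D.x r * D.j (D.pr (D.y r * D.u' i * a)) = a
    have h : ∑ r, ∑ i, D.u i * D.x r * D.j (D.pr (D.y r * D.u' i * a)) = a - D.j (D.pr a) := by
      rw [← D.cx a]
      refine Finset.sum_congr rfl fun r _ => Finset.sum_congr rfl fun i _ => ?_
      rw [jpr2, Finset.mul_sum]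
      refine Finset.sum_congr rfl fun l _ => ?_
      rw [mul_smul_comm, D.ds (D.y r * D.u' i * a)]
      show D.d.lam (D.j (D.c.b l) * (D.y r * D.j (D.c.b' i) * a)) •
        (D.j (D.c.b i) * D.x r * D.j (D.c.b' l)) = _
      simp only [mul_assoc]
    rw [h, one_mul, one_mul]
    abel
  · rw [Fintype.sum_option, Fintype.sum_prod_type]
    show D.j (D.pr (a * 1)) * 1 + ∑ r, ∑ i, D.j (D.pr (a * (D.u i * D.x r))) *
      (D.y r * D.u' i) = a
    have h : ∑ r, ∑ i, D.j (D.pr (a * (D.u i * D.x r))) * (D.y r * D.u' i) =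
        a - D.j (D.pr a) := by
      rw [← D.cy a]
      refine Finset.sum_congr rfl fun r _ => ?_
      rw [Finset.sum_comm]
      refine Finset.sum_congr rfl fun i _ => ?_
      rw [jpr1, Finset.sum_mul]
      refine Finset.sum_congr rfl fun l _ => ?_
      rw [smul_mul_assoc, ← mul_assoc (D.j (D.c.b' l)), D.ds (D.j (D.c.b' l) * a)]
      show D.d.lam (D.j (D.c.b i) * D.x r * (D.j (D.c.b' l) * a)) •
        (D.j (D.c.b l) * (D.y r * D.j (D.c.b' i))) = _
      simp only [mul_assoc]
    rw [h, mul_one, mul_one]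
    abel
  · unfold RF.rt Net.rx
    rw [Fintype.sum_option, Fintype.sum_prod_type]
    show 1 * a * 1 + _ = _
    rw [one_mul, mul_one]
    rfl

end Pool.Agent.PFD.H91
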