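import Pool.Agent.PFD.StmtsD5a
import Pool.Agent.Helper50_PP.Ffa
import Pool.Agent.Helper50_PP.Bid

/-!
# Squad PFD, row PBX: the input of `PmzStmt` for blocks, from the rows of block D5
-/

set_option autoImplicit false

noncomputable section

namespace Pool.Agent.PFD.H91

open Pool.Agent.Helper51_AWC Pool.Agent.Helper79_WRA Pool.Agent.PP Pool.Agent.PP.KF
open Pool.Agent.PP.K9 Pool.Agent.PP.K9.H97 Pool.Agent.PP.H75 Pool.Agent.PP.T3 Pool.Agent.PP.T2
open Pool.Agent.PFC (Jd Crn jal Pj PIn Ctf ls Cz cv)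

attribute [local instance] Ideal.Quotient.field

/-- row PBX -/
theorem pbx (spf : SpfStmt) (jlx : JlxStmt) (egx : EgxStmt) (ful : FulStmt) (lsg : LsgStmt)
    (ctr : CtrStmt) (jex : PFC.JexStmt) (jun : PFC.JunStmt) (ffa : PFC.FfaStmt)
    (fps : PFC.FpsStmt) (lcp : PFC.LcpStmt) (unt : PFC.UntStmt) : PbxStmt := by
  intro ℓ hℓ M iM hM G iG iFG e V γ hL U W hS
  obtain ⟨V', E, iV, iFV, iE, iFE, ι, φ, X, hι, hr, hXW, hctx, hEi, hT1, hT2⟩ :=
    egx ℓ M hM G e V γ hL U W hS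
  obtain ⟨j, hj⟩ := jex ℓ M hM G e V γ hL
  have hg : GoodF ℓ (FF M) := H50.fld ℓ hℓ.out M hM
  haveI : CharP (FF M) ℓ := hg.char
  have hmem : ∀ w : V', ι w ∈ V := fun w => by rw [← hr]; exact ⟨w, rfl⟩
  have hv : ∀ w x, j (ι w * x * (ι w)⁻¹) = j x := fun w x => hj.iv (ι w) (hmem w) x
  obtain ⟨hfin, hfrm, hloc, htop⟩ := ffa ℓ M hM G e V γ hL j hj V' ι hι hr hj.id hv
  have hje : mulF e j = j := (jun ℓ M hM G e V γ hL j hj).2.1
  have hful := ful ℓ M hM G e V γ hL j hj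
  refine ⟨V', E, Crn hj.id, iV, iFV, iE, iFE, inferInstance, inferInstance, ι, φ, X,
    jal hj.id ι hv, hι, hr, hXW, hctx, ?_, hEi, hT1, hT2, ?_, ?_⟩
  · refine ⟨hfin, hfrm, hloc, fps ℓ M hM G e V γ hL j hj V' E ι hι hr φ hT1 hj.id hv, htop,
      ?_, ?_⟩
    · intro Q hQ
      obtain ⟨u, huQ, huX⟩ := SetLike.not_le_iff_exists.1 hQ
      have h1 : Q.map ι ≤ V := by
        rw [← hr]
        rintro _ ⟨w, -, rfl⟩
        exact ⟨w, rfl⟩
      have huW : ι u ∉ W := by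
        intro h
        rw [← hXW] at h
        obtain ⟨w, hw, hwu⟩ := h
        exact huX (hι hwu ▸ hw)
      obtain ⟨n, π, hπ⟩ := jlx ℓ M hM G e V γ hL j hj (Q.map ι) h1 (by
        intro t ht hc
        rcases spf ℓ (FF M) G e V γ hL U W hS t ht (ι u) (hmem u)
          (hc (ι u) (Subgroup.mem_map_of_mem ι huQ)) with h | h
        · exact h
        · exact absurd h huW)
      obtain ⟨π', hπ'⟩ := lcp ℓ (FF M) G V' ι hι hctx.pg j hj.id hv Q n π hπ
      exact ⟨n, π', hπ'⟩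
    · intro x
      obtain ⟨t, ht, htw⟩ := hT2 x
      exact unt ℓ M hM G e V γ hL j hj V' ι hι hr hj.id hv t ht (φ x) htw
  · exact lsg ℓ (FF M) hg G e j hL.blk.1 hje hj.id hful
  · rw [ctr (FF M) G e j hL.blk.1 hje hj.id hful]
    exact H50.chp ℓ hℓ.out M hM G e hL.blk.1

end Pool.Agent.PFD.H91
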