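import Pool.Agent.PFD.StmtsD5b

/-!
# Squad PFD, rows EDC, EDV, EDA, EDF: splitting of a free part
-/

set_option autoImplicit false

open scoped BigOperators

noncomputable section

namespace Pool.Agent.PFD.H91

/-- a power of a nontrivial `ℓ`-element has order `ℓ` -/
theorem pow_ord {V : Type} [Group V] {ℓ : ℕ} {y : V} (hy : y ≠ 1) {k : ℕ} (hk : y ^ ℓ ^ k = 1) :
    ∃ j, y ^ ℓ ^ j ≠ 1 ∧ (y ^ ℓ ^ j) ^ ℓ = 1 := by
  classical
  have hex : ∃ k, y ^ ℓ ^ k = 1 := ⟨k, hk⟩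
  have h0 : Nat.find hex ≠ 0 := by
    intro h
    have h1 := Nat.find_spec hex
    rw [h, pow_zero, pow_one] at h1
    exact hy h1
  obtain ⟨j, hj⟩ := Nat.exists_eq_succ_of_ne_zero h0
  refine ⟨j, ?_, ?_⟩
  · exact Nat.find_min hex (by rw [hj]; exact Nat.lt_succ_self j)
  · have h1 := Nat.find_spec hex
    rw [hj] at h1
    rw [← pow_mul, ← pow_succ]
    exact h1

/-- row EDC -/
theorem edc : EdcStmt := by
  intro ℓ n V _ _ hℓ hV A hA hA2
  classical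
  let S : Set (Subgroup V) := {B | (powMonoidHom (ℓ ^ (n + 1)) : V →* V).range ≤ B ∧ Disjoint A B}
  have hS : (powMonoidHom (ℓ ^ (n + 1)) : V →* V).range ∈ S := by
    refine ⟨le_rfl, ?_⟩
    rw [Subgroup.disjoint_def]
    rintro x hx ⟨v, rfl⟩
    exact hA2 v hx
  obtain ⟨B, hB0, hB⟩ := (Set.toFinite S).exists_le_maximal hS
  refine ⟨B, hB.prop.2, ?_⟩
  rw [codisjoint_iff]
  by_contra hne
  obtain ⟨w0, -, hw0⟩ := SetLike.exists_of_lt (lt_top_iff_ne_top.2 hne)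
  -- an element of order `ℓ` modulo `A B`
  obtain ⟨v, hv, hvl⟩ : ∃ v, v ∉ A ⊔ B ∧ v ^ ℓ ∈ A ⊔ B := by
    obtain ⟨k, hk⟩ := hV w0
    have hex : ∃ k, w0 ^ ℓ ^ k ∈ A ⊔ B := ⟨k, by rw [hk]; exact Subgroup.one_mem _⟩
    have h0 : Nat.find hex ≠ 0 := by
      intro h
      have h1 := Nat.find_spec hex
      rw [h, pow_zero, pow_one] at h1
      exact hw0 h1
    obtain ⟨j, hj⟩ := Nat.exists_eq_succ_of_ne_zero h0
    refine ⟨w0 ^ ℓ ^ j, ?_, ?_⟩
    · exact Nat.find_min hex (by rw [hj]; exact Nat.lt_succ_self j)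
    · have h1 := Nat.find_spec hex
      rw [hj] at h1
      rw [← pow_mul, ← pow_succ]
      exact h1
  obtain ⟨a, ha, b, hb, hab⟩ := Subgroup.mem_sup.1 hvl
  have h1 : v ^ ℓ ^ (n + 1) = a ^ ℓ ^ n * b ^ ℓ ^ n := by
    rw [pow_succ', pow_mul, ← hab, mul_pow]
  have h2 : v ^ ℓ ^ (n + 1) ∈ B := hB.prop.1 ⟨v, rfl⟩
  have h3 : a ^ ℓ ^ n = 1 := by
    refine (Subgroup.disjoint_def.1 hB.prop.2) (Subgroup.pow_mem _ ha _) ?_
    have : a ^ ℓ ^ n = v ^ ℓ ^ (n + 1) * (b ^ ℓ ^ n)⁻¹ := by rw [h1, mul_inv_cancel_right]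
    rw [this]
    exact Subgroup.mul_mem _ h2 (Subgroup.inv_mem _ (Subgroup.pow_mem _ hb _))
  obtain ⟨c, hc, hac⟩ := hA a ha h3
  have hwn : v * c⁻¹ ∉ A ⊔ B := by
    intro h
    apply hv
    have : v = v * c⁻¹ * c := by rw [inv_mul_cancel_right]
    rw [this]
    exact Subgroup.mul_mem _ h (Subgroup.mem_sup_left hc)
  have hwl : (v * c⁻¹) ^ ℓ ∈ B := by
    rw [mul_pow, inv_pow, ← hac, ← hab, mul_comm a b, mul_inv_cancel_right]
    exact hb
  have hB' : B ⊔ Subgroup.zpowers (v * c⁻¹) ∈ S := by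
    refine ⟨hB.prop.1.trans le_sup_left, ?_⟩
    rw [Subgroup.disjoint_def]
    intro x hx hx'
    obtain ⟨b1, hb1, y, hy, hbx⟩ := Subgroup.mem_sup.1 hx'
    obtain ⟨k, rfl⟩ := Subgroup.mem_zpowers_iff.1 hy
    have h4 : (v * c⁻¹) ^ k ∈ A ⊔ B := by
      have : (v * c⁻¹) ^ k = b1⁻¹ * x := by rw [← hbx, inv_mul_cancel_left]
      rw [this]
      exact Subgroup.mul_mem _ (Subgroup.mem_sup_right (Subgroup.inv_mem _ hb1))
        (Subgroup.mem_sup_left hx)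
    have h5 : (ℓ : ℤ) ∣ k := by
      by_contra hnd
      have hco : IsCoprime (ℓ : ℤ) k := (Nat.prime_iff_prime_int.1 hℓ).coprime_iff_not_dvd.2 hnd
      obtain ⟨s, t, hst⟩ := hco
      apply hwn
      have : v * c⁻¹ = ((v * c⁻¹) ^ ℓ) ^ s * ((v * c⁻¹) ^ k) ^ t := by
        rw [← zpow_natCast, ← zpow_mul, ← zpow_mul, ← zpow_add, mul_comm (ℓ : ℤ), mul_comm k,
          hst, zpow_one]
      rw [this]
      exact Subgroup.mul_mem _ (Subgroup.mem_sup_right (Subgroup.zpow_mem _ hwl _))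
        (Subgroup.zpow_mem _ h4 _)
    obtain ⟨j, rfl⟩ := h5
    refine (Subgroup.disjoint_def.1 hB.prop.2) hx ?_
    rw [← hbx, zpow_mul, zpow_natCast]
    exact Subgroup.mul_mem _ hb1 (Subgroup.zpow_mem _ hwl _)
  have h6 := hB.le_of_ge hB' le_sup_left
  exact hwn (Subgroup.mem_sup_right (h6 (Subgroup.mem_sup_right (Subgroup.mem_zpowers _))))

/-- row EDV -/
theorem edv : EdvStmt := by
  intro V E _ _ _ _ φ hco A B hAB hA
  classical
  have := Fintype.ofFinite E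
  -- the projection
  have hdec : ∀ v : V, ∃ a b, a ∈ A ∧ b ∈ B ∧ a * b = v := by
    intro v
    have hv : v ∈ A ⊔ B := by rw [hAB.sup_eq_top]; exact Subgroup.mem_top v
    obtain ⟨a, ha, b, hb, h⟩ := Subgroup.mem_sup.1 hv
    exact ⟨a, b, ha, hb, h⟩
  choose pa pb hpa hpb hp using hdec
  have huniq : ∀ a b a' b', a ∈ A → b ∈ B → a' ∈ A → b' ∈ B → a * b = a' * b' → a = a' := by
    intro a b a' b' ha hb ha' hb' h
    have h1 : a'⁻¹ * a = b' * b⁻¹ := by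
      rw [inv_mul_eq_iff_eq_mul, ← mul_assoc, ← h, mul_inv_cancel_right]
    have h2 : a'⁻¹ * a = 1 := (Subgroup.disjoint_def.1 hAB.disjoint)
      (Subgroup.mul_mem _ (Subgroup.inv_mem _ ha') ha)
      (h1 ▸ Subgroup.mul_mem _ hb' (Subgroup.inv_mem _ hb))
    exact (inv_mul_eq_one.1 h2).symm
  let π : V →* V :=
    { toFun := pa
      map_one' := huniq _ (pb 1) 1 1 (hpa 1) (hpb 1) (Subgroup.one_mem _) (Subgroup.one_mem _)
        (by rw [hp, one_mul])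
      map_mul' := fun v w => huniq _ (pb (v * w)) _ (pb v * pb w) (hpa _) (hpb _)
        (Subgroup.mul_mem _ (hpa v) (hpa w)) (Subgroup.mul_mem _ (hpb v) (hpb w))
        (by rw [hp, mul_mul_mul_comm, hp, hp]) }
  have hπA : ∀ v, π v ∈ A := hpa
  have hπa : ∀ a ∈ A, π a = a := fun a ha =>
    huniq _ (pb a) a 1 (hpa a) (hpb a) ha (Subgroup.one_mem _) (by
      show pa a * pb a = a * 1
      rw [hp, mul_one])
  let σ : V →* V := ∏ e : E, (φ e).toMonoidHom.comp (π.comp (φ e⁻¹).toMonoidHom)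
  have hσ : ∀ v, σ v = ∏ e : E, φ e (π (φ e⁻¹ v)) := by
    intro v
    show (∏ e : E, (φ e).toMonoidHom.comp (π.comp (φ e⁻¹).toMonoidHom)) v = _
    rw [MonoidHom.finset_prod_apply]
    rfl
  have hinv : ∀ e v, φ e (φ e⁻¹ v) = v := by
    intro e v
    rw [← MulAut.mul_apply, ← map_mul, mul_inv_cancel, map_one]
    rfl
  have hσA : ∀ v, σ v ∈ A := by
    intro v
    rw [hσ]
    exact Subgroup.prod_mem _ fun e _ => hA e _ (hπA _)
  have hσa : ∀ a ∈ A, σ a = a ^ Nat.card E := by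
    intro a ha
    rw [hσ, Finset.prod_congr rfl fun e _ => by rw [hπa _ (hA e⁻¹ a ha), hinv],
      Finset.prod_const, Finset.card_univ, Nat.card_eq_fintype_card]
  have hσE : ∀ g v, σ (φ g v) = φ g (σ v) := by
    intro g v
    rw [hσ, hσ, map_prod, ← Equiv.prod_comp (Equiv.mulLeft g)
      (fun e => φ e (π (φ e⁻¹ (φ g v))))]
    refine Finset.prod_congr rfl fun e _ => ?_
    show φ (g * e) (π (φ (g * e)⁻¹ (φ g v))) = φ g (φ e (π (φ e⁻¹ v)))
    rw [map_mul, MulAut.mul_apply, mul_inv_rev, map_mul, MulAut.mul_apply]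
    have h1 : φ g⁻¹ (φ g v) = v := by
      have := hinv g⁻¹ v
      rwa [inv_inv] at this
    rw [h1]
  -- a number `y` with `|E| y = 1` modulo `|V|`
  have hbez : ∀ a : V, (a ^ Nat.card E) ^ (Nat.gcdB (Nat.card V) (Nat.card E)) = a := by
    intro a
    have h1 := Nat.gcd_eq_gcd_ab (Nat.card V) (Nat.card E)
    rw [hco.gcd_eq_one, Nat.cast_one] at h1
    rw [← zpow_natCast, ← zpow_mul]
    have h2 : a ^ ((Nat.card V : ℤ) * Nat.gcdA (Nat.card V) (Nat.card E)) = 1 := by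
      rw [zpow_mul, zpow_natCast, pow_card_eq_one', one_zpow]
    calc a ^ ((Nat.card E : ℤ) * Nat.gcdB (Nat.card V) (Nat.card E))
        = a ^ ((Nat.card V : ℤ) * Nat.gcdA (Nat.card V) (Nat.card E)) *
          a ^ ((Nat.card E : ℤ) * Nat.gcdB (Nat.card V) (Nat.card E)) := by rw [h2, one_mul]
      _ = a := by rw [← zpow_add, ← h1, zpow_one]
  set y := Nat.gcdB (Nat.card V) (Nat.card E) with hy
  let τ : V →* V := (zpowGroupHom y).comp σ
  have hτ : ∀ v, τ v = (σ v) ^ y := fun _ => rfl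
  have hτA : ∀ v, τ v ∈ A := fun v => by rw [hτ]; exact Subgroup.zpow_mem _ (hσA v) _
  have hτa : ∀ a ∈ A, τ a = a := fun a ha => by rw [hτ, hσa a ha, hbez]
  have hτE : ∀ g v, τ (φ g v) = φ g (τ v) := fun g v => by rw [hτ, hτ, hσE, map_zpow]
  refine ⟨τ.ker, ⟨?_, ?_⟩, ?_⟩
  · rw [Subgroup.disjoint_def]
    intro a ha hk
    rw [MonoidHom.mem_ker, hτa a ha] at hk
    exact hk
  · rw [codisjoint_iff, eq_top_iff]
    intro v _
    rw [Subgroup.mem_sup]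
    refine ⟨τ v, hτA v, (τ v)⁻¹ * v, ?_, mul_inv_cancel_left _ _⟩
    rw [MonoidHom.mem_ker, map_mul, map_inv, hτa _ (hτA v), inv_mul_cancel]
  · intro e u hu
    rw [MonoidHom.mem_ker] at hu ⊢
    rw [hτE, hu, map_one]

/-- restriction of the action -/
theorem restr {V E : Type} [CommGroup V] [Group E] (φ : E →* MulAut V) (A : Subgroup V)
    (hA : ∀ e, ∀ a ∈ A, φ e a ∈ A) : ∃ ψ : E →* MulAut A, ∀ e (a : A), (ψ e a : V) = φ e a := by
  have hinv : ∀ e v, φ e (φ e⁻¹ v) = v := by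
    intro e v
    rw [← MulAut.mul_apply, ← map_mul, mul_inv_cancel, map_one]
    rfl
  have hinv' : ∀ e v, φ e⁻¹ (φ e v) = v := by
    intro e v
    have := hinv e⁻¹ v
    rwa [inv_inv] at this
  refine ⟨{ toFun := fun e =>
              { toFun := fun a => ⟨φ e a, hA e a a.2⟩
                invFun := fun a => ⟨φ e⁻¹ a, hA e⁻¹ a a.2⟩
                left_inv := fun a => Subtype.ext (hinv' e a)
                right_inv := fun a => Subtype.ext (hinv e a)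
                map_mul' := fun a b => Subtype.ext (by
                  show φ e ((a * b : A) : V) = φ e a * φ e b
                  rw [Subgroup.coe_mul, map_mul]) }
            map_one' := ?_
            map_mul' := ?_ }, fun e a => rfl⟩
  · apply MulEquiv.ext
    intro a
    apply Subtype.ext
    show φ 1 (a : V) = a
    rw [map_one]
    rfl
  · intro e g
    apply MulEquiv.ext
    intro a
    apply Subtype.ext
    show φ (e * g) (a : V) = φ e (φ g a)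
    rw [map_mul]
    rfl

/-- the action on a quotient -/
theorem quot {V E : Type} [CommGroup V] [Group E] (φ : E →* MulAut V) (N : Subgroup V)
    (hN : ∀ e, ∀ a ∈ N, φ e a ∈ N) :
    ∃ ψ : E →* MulAut (V ⧸ N), ∀ e (v : V), ψ e (QuotientGroup.mk v) = QuotientGroup.mk (φ e v) := by
  have hinv : ∀ e v, φ e (φ e⁻¹ v) = v := by
    intro e v
    rw [← MulAut.mul_apply, ← map_mul, mul_inv_cancel, map_one]
    rfl
  have hmap : ∀ e, N.map ((φ e : V ≃* V) : V →* V) = N := by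
    intro e
    apply le_antisymm
    · rintro _ ⟨a, ha, rfl⟩
      exact hN e a ha
    · intro a ha
      exact ⟨φ e⁻¹ a, hN e⁻¹ a ha, hinv e a⟩
  refine ⟨{ toFun := fun e => QuotientGroup.congr N N (φ e) (hmap e)
            map_one' := ?_
            map_mul' := ?_ }, fun e v => ?_⟩
  · apply MulEquiv.ext
    intro x
    obtain ⟨v, rfl⟩ := QuotientGroup.mk_surjective x
    rw [QuotientGroup.congr_mk, map_one]
    rfl
  · intro e g
    apply MulEquiv.ext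
    intro x
    obtain ⟨v, rfl⟩ := QuotientGroup.mk_surjective x
    rw [MulAut.mul_apply, QuotientGroup.congr_mk, QuotientGroup.congr_mk, QuotientGroup.congr_mk,
      map_mul]
    rfl
  · exact QuotientGroup.congr_mk N N (φ e) (hmap e) v

/-- row EDA -/
theorem eda (edc : EdcStmt) (edv : EdvStmt) : EdaStmt := by
  intro ℓ n V E _ _ _ _ φ hℓ hE U hU hUE hUl hUn
  classical
  have hfact : Fact ℓ.Prime := ⟨hℓ⟩
  let S : Set (Subgroup V) := {A | (∀ e, ∀ a ∈ A, φ e a ∈ A) ∧ (∀ a ∈ A, a ^ ℓ ^ n ∈ U) ∧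
    ∀ u ∈ U, ∃ a ∈ A, u = a ^ ℓ ^ n}
  have hS : U.comap (powMonoidHom (ℓ ^ n)) ∈ S := by
    refine ⟨?_, ?_, ?_⟩
    · intro e a ha
      show (φ e a) ^ ℓ ^ n ∈ U
      rw [← map_pow]
      exact hUE e _ ha
    · intro a ha
      exact ha
    · intro u hu
      obtain ⟨v, hv⟩ := hUn u hu
      refine ⟨v, ?_, hv⟩
      show v ^ ℓ ^ n ∈ U
      rw [← hv]
      exact hu
  obtain ⟨A, -, hA⟩ := (Set.toFinite S).exists_le_minimal hS
  obtain ⟨hAE, hAU, hUA⟩ := hA.prop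
  -- the action on `A / A ^ ℓ`
  obtain ⟨ψ, hψ⟩ := restr φ A hAE
  let N : Subgroup A := (powMonoidHom ℓ : A →* A).range
  have hNE : ∀ e, ∀ a ∈ N, ψ e a ∈ N := by
    rintro e _ ⟨a, rfl⟩
    exact ⟨ψ e a, (map_pow (ψ e) a ℓ).symm⟩
  obtain ⟨χ, hχ⟩ := quot ψ N hNE
  have hexp : ∀ x : A ⧸ N, x ^ ℓ = 1 := by
    intro x
    obtain ⟨v, rfl⟩ := QuotientGroup.mk_surjective x
    rw [← QuotientGroup.mk_pow, QuotientGroup.eq_one_iff]
    exact ⟨v, rfl⟩
  have hpg : IsPGroup ℓ (A ⧸ N) := fun x => ⟨1, by rw [pow_one]; exact hexp x⟩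
  have hcoQ : (Nat.card (A ⧸ N)).Coprime (Nat.card E) := by
    obtain ⟨k, hk⟩ := IsPGroup.iff_card.1 hpg
    rw [hk]
    exact Nat.Coprime.pow_left _ ((Nat.Prime.coprime_iff_not_dvd hℓ).2 hE)
  let K : Subgroup A := (powMonoidHom (ℓ ^ n) : A →* A).ker
  have hK : ∀ a : A, a ∈ K ↔ (a : V) ^ ℓ ^ n = 1 := by
    intro a
    rw [MonoidHom.mem_ker, powMonoidHom_apply]
    constructor
    · intro h
      have h1 := congrArg Subtype.val h
      exact h1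
    · intro h
      exact Subtype.ext h
  let Kb : Subgroup (A ⧸ N) := K.map (QuotientGroup.mk' N)
  obtain ⟨Bb, hBb⟩ := edc ℓ 0 (A ⧸ N) hℓ hpg Kb
    (fun a _ h1 => ⟨1, Subgroup.one_mem _, by
      rw [pow_zero, pow_one] at h1
      rw [h1, one_pow]⟩)
    (fun v _ => by rw [zero_add, pow_one]; exact hexp v)
  obtain ⟨Wb, hWb, hWbE⟩ := edv (A ⧸ N) E χ hcoQ Kb Bb hBb (by
    rintro e _ ⟨a, ha, rfl⟩
    refine ⟨ψ e a, ?_, (hχ e a).symm⟩
    show ψ e a ∈ K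
    rw [hK, hψ, ← map_pow, (hK a).1 ha, map_one])
  let A' : Subgroup V := (Wb.comap (QuotientGroup.mk' N)).map A.subtype
  have hA' : A' ∈ S := by
    refine ⟨?_, ?_, ?_⟩
    · rintro e _ ⟨a, ha, rfl⟩
      refine ⟨ψ e a, ?_, hψ e a⟩
      show (QuotientGroup.mk (ψ e a) : A ⧸ N) ∈ Wb
      rw [← hχ]
      exact hWbE e _ ha
    · rintro _ ⟨a, ha, rfl⟩
      exact hAU a a.2
    · intro u hu
      obtain ⟨a, ha, hau⟩ := hUA u hu
      have h1 : (QuotientGroup.mk (⟨a, ha⟩ : A) : A ⧸ N) ∈ Kb ⊔ Wb := by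
        rw [hWb.sup_eq_top]
        exact Subgroup.mem_top _
      obtain ⟨_, ⟨k, hk, rfl⟩, w, hw, hkw⟩ := Subgroup.mem_sup.1 h1
      refine ⟨((k⁻¹ * ⟨a, ha⟩ : A) : V), ⟨k⁻¹ * ⟨a, ha⟩, ?_, rfl⟩, ?_⟩
      · show (QuotientGroup.mk (k⁻¹ * ⟨a, ha⟩) : A ⧸ N) ∈ Wb
        have h2 : (QuotientGroup.mk (k⁻¹ * ⟨a, ha⟩) : A ⧸ N) = w := by
          rw [QuotientGroup.mk_mul, QuotientGroup.mk_inv, inv_mul_eq_iff_eq_mul]
          exact hkw.symm
        rw [h2]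
        exact hw
      · rw [Subgroup.coe_mul, mul_pow, Subgroup.coe_inv, inv_pow, (hK k).1 hk, inv_one, one_mul]
        exact hau
  have hle : A ≤ A' := hA.le_of_le hA' (by
    rintro _ ⟨a, -, rfl⟩
    exact a.2)
  have hKN : ∀ a ∈ A, a ^ ℓ ^ n = 1 → ∃ c ∈ A, a = c ^ ℓ := by
    intro a ha h1
    obtain ⟨a', ha', haa⟩ := hle ha
    have h2 : a' = ⟨a, ha⟩ := Subtype.ext haa
    have h3 : (QuotientGroup.mk a' : A ⧸ N) = 1 := by
      refine (Subgroup.disjoint_def.1 hWb.disjoint) ⟨a', ?_, rfl⟩ ha'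
      show a' ∈ K
      rw [hK, h2]
      exact h1
    obtain ⟨c, hc⟩ := (QuotientGroup.eq_one_iff a').1 h3
    refine ⟨c, c.2, ?_⟩
    rw [h2] at hc
    have h4 := congrArg Subtype.val hc
    exact h4.symm
  refine ⟨A, hAE, ?_, ?_, hKN⟩
  · intro u hu
    obtain ⟨a, ha, rfl⟩ := hUA u hu
    exact Subgroup.pow_mem _ ha _
  · intro a ha hal
    have h1 : ∀ j ≤ n, ∃ c ∈ A, a = c ^ ℓ ^ j := by
      intro j
      induction j with
      | zero => intro _; exact ⟨a, ha, by rw [pow_zero, pow_one]⟩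
      | succ j ih =>
        intro hj
        obtain ⟨c, hc, hac⟩ := ih (by omega)
        have h2 : c ^ ℓ ^ n = 1 := by
          have h3 : c ^ ℓ ^ (j + 1) = 1 := by
            rw [pow_succ, pow_mul, ← hac, hal]
          obtain ⟨i, rfl⟩ := Nat.exists_eq_add_of_le hj
          rw [pow_add, pow_mul, h3, one_pow]
        obtain ⟨d, hd, hcd⟩ := hKN c hc h2
        exact ⟨d, hd, by rw [hac, hcd, ← pow_mul, ← pow_succ']⟩
    obtain ⟨c, hc, hac⟩ := h1 n le_rfl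
    rw [hac]
    exact hAU c hc

/-- row EDF -/
theorem edf (eda : EdaStmt) (edc : EdcStmt) (edv : EdvStmt) : EdfStmt := by
  intro ℓ V E _ _ _ _ φ hℓ hV hE U hU hUE hUf
  classical
  have hfact : Fact ℓ.Prime := ⟨hℓ⟩
  let S : Set (Subgroup V) := {A | A ≠ ⊥ ∧ A ≤ U ∧ ∀ e, ∀ a ∈ A, φ e a ∈ A}
  obtain ⟨U1, -, hU1⟩ := (Set.toFinite S).exists_le_minimal (a := U) ⟨hU, le_rfl, hUE⟩
  obtain ⟨hne, hU1U, hU1E⟩ := hU1.prop
  have hordV : ∀ y : V, y ≠ 1 → ∃ j, y ^ ℓ ^ j ≠ 1 ∧ (y ^ ℓ ^ j) ^ ℓ = 1 := by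
    intro y hy
    obtain ⟨k, hk⟩ := hV y
    exact pow_ord hy hk
  -- a nontrivial stable subgroup of `U1` is `U1`
  have hmin : ∀ T : Subgroup V, (∃ y ∈ T, y ∈ U1 ∧ y ≠ 1) → (∀ e, ∀ a ∈ T, φ e a ∈ T) →
      U1 ≤ T := by
    rintro T ⟨y, hy1, hy2, hy3⟩ hT
    have h1 : U1 ⊓ T ∈ S := by
      refine ⟨?_, inf_le_left.trans hU1U, fun e a ha => ⟨hU1E e a ha.1, hT e a ha.2⟩⟩
      intro h
      exact hy3 ((Subgroup.eq_bot_iff_forall _).1 h y ⟨hy2, hy1⟩)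
    exact (hU1.le_of_le h1 inf_le_left).trans inf_le_right
  have hU1l : ∀ u ∈ U1, u ^ ℓ = 1 := by
    obtain ⟨u, hu, hu1⟩ := (Subgroup.bot_or_exists_ne_one U1).resolve_left hne
    obtain ⟨j, hj1, hj2⟩ := hordV u hu1
    have h1 := hmin (powMonoidHom ℓ : V →* V).ker
      ⟨u ^ ℓ ^ j, hj2, Subgroup.pow_mem _ hu _, hj1⟩
      (fun e a ha => by
        have h2 : a ^ ℓ = 1 := ha
        show (φ e a) ^ ℓ = 1
        rw [← map_pow, h2, map_one])
    intro u hu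
    exact h1 hu
  have hex : ∃ m, ¬ ∀ u ∈ U1, ∃ v : V, u = v ^ ℓ ^ m := by
    obtain ⟨k, hk⟩ := IsPGroup.iff_card.1 hV
    refine ⟨k, fun h => ?_⟩
    obtain ⟨u, hu, hu1⟩ := (Subgroup.bot_or_exists_ne_one U1).resolve_left hne
    obtain ⟨v, hv⟩ := h u hu
    apply hu1
    rw [hv, ← hk, pow_card_eq_one']
  have h0 : Nat.find hex ≠ 0 := by
    intro h
    apply Nat.find_spec hex
    rw [h]
    intro u _
    exact ⟨u, by rw [pow_zero, pow_one]⟩
  obtain ⟨n, hn⟩ := Nat.exists_eq_succ_of_ne_zero h0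
  have hn1 : ∀ u ∈ U1, ∃ v : V, u = v ^ ℓ ^ n := by
    by_contra h
    exact Nat.find_min hex (by rw [hn]; exact Nat.lt_succ_self n) h
  have hn2 : ¬ ∀ u ∈ U1, ∃ v : V, u = v ^ ℓ ^ (n + 1) := by
    have := Nat.find_spec hex
    rw [hn] at this
    exact this
  obtain ⟨A, hAE, hUA, hA1, hA2⟩ := eda ℓ n V E φ hℓ hE U1 hne hU1E hU1l hn1
  have hA3 : ∀ v : V, v ^ ℓ ^ (n + 1) ∈ A → v ^ ℓ ^ (n + 1) = 1 := by
    intro v hv
    by_contra hne1
    obtain ⟨j, hj1, hj2⟩ := hordV _ hne1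
    apply hn2
    have h1 := hmin (powMonoidHom (ℓ ^ (n + 1)) : V →* V).range
      ⟨(v ^ ℓ ^ (n + 1)) ^ ℓ ^ j, ⟨v ^ ℓ ^ j, by
        show (v ^ ℓ ^ j) ^ ℓ ^ (n + 1) = _
        rw [← pow_mul, ← pow_mul, mul_comm]⟩, hA1 _ (Subgroup.pow_mem _ hv _) hj2, hj1⟩
      (by
        rintro e _ ⟨w, rfl⟩
        exact ⟨φ e w, (map_pow (φ e) w _).symm⟩)
    intro u hu
    obtain ⟨w, hw⟩ := h1 hu
    exact ⟨w, hw.symm⟩
  obtain ⟨B, hB⟩ := edc ℓ n V hℓ hV A hA2 hA3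
  have hco : (Nat.card V).Coprime (Nat.card E) := by
    obtain ⟨k, hk⟩ := IsPGroup.iff_card.1 hV
    rw [hk]
    exact Nat.Coprime.pow_left _ ((Nat.Prime.coprime_iff_not_dvd hℓ).2 hE)
  obtain ⟨W, hW, hWE⟩ := edv V E φ hco A B hB hAE
  refine ⟨A, W, ?_, hW, hAE, hWE, ?_⟩
  · intro h
    exact hne (le_bot_iff.1 (h ▸ hUA))
  · intro e a ha hea
    by_cases h1 : a = 1
    · exact Or.inr h1
    · left
      obtain ⟨j, hj1, hj2⟩ := hordV a h1
      have h2 : a ^ ℓ ^ j ∈ U := hU1U (hA1 _ (Subgroup.pow_mem _ ha _) hj2)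
      exact (hUf e _ h2 (by rw [map_pow, hea])).resolve_right hj1

end Pool.Agent.PFD.H91
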