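import Pool.Agent.PFD.StmtsD3

/-!
# Squad PFD, block D3: tools for crossed products
-/

set_option autoImplicit false

open scoped BigOperators

noncomputable section

namespace Pool.Agent.PFD.D3.H91

open Pool.Agent.PFD.CP

section

variable {k S E : Type} [CommRing k] [CommRing S] [Algebra k S] [Group E] [Fintype E]

/-- the inverse of `n e` -/
def ni (D : CD k S E) (e : E) : CP D := (((D.c e e⁻¹)⁻¹ : kˣ) : k) • CP.n D e⁻¹

variable (D : CD k S E)

theorem n_ni (e : E) : CP.n D e * ni D e = 1 := CP.n_mul_inv e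

theorem ni_n (e : E) : ni D e * CP.n D e = 1 := CP.inv_mul_n e

theorem sn_ni_f (b : S) (g e : E) [Decidable (g = e)] :
    (CP.sn D b g * ni D e).f 1 = if g = e then b else 0 := by
  unfold ni CP.n
  rw [mul_smul_comm, CP.sn_mul_sn, CP.smul_f, CP.smul_f, CP.sn_f, map_one, mul_one]
  by_cases h : g = e
  · rw [if_pos h, if_pos (by rw [h, mul_inv_cancel]), h, smul_smul, Units.inv_mul, one_smul]
  · rw [if_neg h, if_neg, smul_zero, smul_zero]
    intro h1
    exact h (mul_inv_eq_one.1 h1.symm)

theorem sn_eq (b : S) (g : E) : CP.sn D b g = CP.iS D b * CP.n D g := (CP.iS_mul_n b g).symm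

theorem iS_sn (a b : S) (g : E) : CP.iS D a * CP.sn D b g = CP.sn D (a * b) g := by
  rw [CP.iS_apply, CP.sn_mul_sn, D.one_left, Units.val_one, one_smul, map_one, one_mul]
  rfl

theorem sn_iS (a b : S) (g : E) : CP.sn D b g * CP.iS D a = CP.sn D (b * D.act g a) g := by
  rw [CP.iS_apply, CP.sn_mul_sn, D.one_right, Units.val_one, one_smul, mul_one]

theorem iS_ni (e : E) (s : S) : CP.iS D s * ni D e = ni D e * CP.iS D (D.act e s) := by
  have h1 : CP.n D e * (CP.iS D s * ni D e) = CP.n D e * (ni D e * CP.iS D (D.act e s)) := by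
    rw [← mul_assoc, CP.n_mul_iS, mul_assoc, n_ni, ← mul_assoc, n_ni, one_mul, mul_one]
  have h2 := congrArg (fun x => ni D e * x) h1
  simpa only [← mul_assoc, ni_n, one_mul] using h2

theorem ni_mul_n (h g : E) : ni D (h * g) * CP.n D h = (D.c h g : k) • ni D g := by
  have h1 : ni D (h * g) * CP.n D h * CP.n D g = (D.c h g : k) • (1 : CP D) := by
    rw [mul_assoc, CP.n_mul_n, mul_smul_comm, ni_n]
  have h2 := congrArg (fun x => x * ni D g) h1
  simpa only [mul_assoc, n_ni, mul_one, smul_mul_assoc, one_mul] using h2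

/-- the centre of a crossed product -/
theorem mem_center (b : CP D) (h1 : ∀ s, CP.iS D s * b = b * CP.iS D s)
    (h2 : ∀ e, CP.n D e * b = b * CP.n D e) : b ∈ Subalgebra.center k (CP D) := by
  rw [Subalgebra.mem_center_iff]
  intro a
  rw [← CP.sum_iS_n a, Finset.sum_mul, Finset.mul_sum]
  refine Finset.sum_congr rfl fun e _ => ?_
  rw [mul_assoc, h2, ← mul_assoc, h1, mul_assoc]

end

end Pool.Agent.PFD.D3.H91
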