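import Pool.Agent.Helper91_PFD.CPA

/-!
# Squad PFD, row CPT: the relative Frobenius system of the crossed product
-/

set_option autoImplicit false

open scoped BigOperators

noncomputable section

namespace Pool.Agent.PFD.D3.H91

open Pool.Agent.PFD.CP

/-- the second set of dual bases -/
theorem t2_of_t1 {R Γ K : Type} [CommRing R] [Ring Γ] [Algebra R Γ] [Fintype K] (t : Γ →ₗ[R] R)
    (ts : ∀ x y, t (x * y) = t (y * x)) (b b' : K → Γ) (t1 : ∀ a, ∑ k, t (b' k * a) • b k = a)
    (a : Γ) : ∑ k, t (a * b k) • b' k = a := by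
  have nd : ∀ c, (∀ x, t (c * x) = 0) → c = 0 := by
    intro c hc
    rw [← t1 c]
    refine Finset.sum_eq_zero fun k _ => ?_
    rw [ts, hc, zero_smul]
  rw [← sub_eq_zero]
  apply nd
  intro x
  rw [sub_mul, map_sub, Finset.sum_mul, map_sum, sub_eq_zero]
  have h1 : ∀ k, t (t (a * b k) • b' k * x) = t (a * (t (b' k * x) • b k)) := by
    intro k
    rw [smul_mul_assoc, map_smul, mul_smul_comm, map_smul, smul_eq_mul, smul_eq_mul, mul_comm]
  rw [Finset.sum_congr rfl fun k _ => h1 k, ← map_sum, ← Finset.mul_sum, t1]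

/-- row CPT -/
theorem cpt : CptStmt := by
  intro R F V E S _ _ _ _ _ ℓ c o φ W _ z _ _ s hW
  classical
  letI hfJ : Fintype s.J := s.fJ
  set D := D1 o z s with hD
  have hact : ∀ e x, D.act e x = s.act e x := fun _ _ => rfl
  -- the action on `W`
  let rW : E → (W →* W) := fun e =>
    { toFun := fun w => ⟨φ e w, hW e w w.2⟩
      map_one' := Subtype.ext (by
        show φ e ((1 : W) : V) = 1
        rw [OneMemClass.coe_one, map_one])
      map_mul' := fun u w => Subtype.ext (by
        show φ e ((u * w : W) : V) = φ e u * φ e w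
        rw [Subgroup.coe_mul, map_mul]) }
  have hrW : ∀ e w, ((rW e w : W) : V) = φ e w := fun _ _ => rfl
  have hinv : ∀ e w, rW e (rW e⁻¹ w) = w := by
    intro e w
    apply Subtype.ext
    rw [hrW, hrW, ← MulAut.mul_apply, ← map_mul, mul_inv_cancel, map_one]
    rfl
  have hinv' : ∀ e w, rW e⁻¹ (rW e w) = w := by
    intro e w
    have := hinv e⁻¹ w
    rwa [inv_inv] at this
  have hbij : ∀ e, Function.Bijective (rW e) := fun e =>
    ⟨fun u w h => by rw [← hinv' e u, h, hinv'], fun w => ⟨rW e⁻¹ w, hinv e w⟩⟩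
  have hom : ∀ e w, s.act e (s.om w) = s.om (rW e w) := fun e w => s.om_act e w _ (hrW e w)
  -- the form
  let t : CP D →ₗ[R] R :=
    { toFun := fun a => s.t (a.f 1)
      map_add' := fun a b => by rw [CP.add_f, map_add]
      map_smul' := fun r a => by rw [CP.smul_f, map_smul, RingHom.id_apply] }
  have ht : ∀ a, t a = s.t (a.f 1) := fun _ => rfl
  have ts : ∀ x y, t (x * y) = t (y * x) := by
    intro x y
    rw [ht, ht, CP.mul_f, CP.mul_f, map_sum, map_sum,
      ← Equiv.sum_comp (Equiv.inv E) (fun h => s.t ((D.c h (h⁻¹ * 1) : R) •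
        (y.f h * D.act h (x.f (h⁻¹ * 1)))))]
    refine Finset.sum_congr rfl fun h _ => ?_
    show s.t ((D.c h (h⁻¹ * 1) : R) • (x.f h * D.act h (y.f (h⁻¹ * 1)))) =
      s.t ((D.c h⁻¹ (h⁻¹⁻¹ * 1) : R) • (y.f h⁻¹ * D.act h⁻¹ (x.f (h⁻¹⁻¹ * 1))))
    rw [mul_one, mul_one, inv_inv, map_smul, map_smul, CP.c_inv_symm]
    congr 1
    have h1 : s.act h (y.f h⁻¹ * D.act h⁻¹ (x.f h)) = s.act h (y.f h⁻¹) * x.f h := by
      rw [map_mul]
      congr 1
      show s.act h (s.act h⁻¹ (x.f h)) = x.f h
      rw [← AlgEquiv.mul_apply, ← map_mul, mul_inv_cancel, map_one]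
      rfl
    rw [← s.t_act h (y.f h⁻¹ * D.act h⁻¹ (x.f h)), h1, mul_comm]
    rfl
  -- the families
  let om : W →* CP D := (CP.iS D).toMonoidHom.comp s.om
  have homD : ∀ w, om w = CP.iS D (s.om w) := fun _ => rfl
  let x : s.J × E → CP D := fun i => CP.sn D (s.y i.1) i.2
  let x' : s.J × E → CP D := fun i => ni D i.2 * CP.iS D (s.y' i.1)
  have hx : ∀ (i : s.J × E) (w : W), x i * om w = CP.sn D (s.y i.1 * s.om (rW i.2 w)) i.2 := by
    intro i w
    show CP.sn D (s.y i.1) i.2 * CP.iS D (s.om w) = _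
    rw [sn_iS, hact, hom]
  have key : ∀ (i : s.J × E) (w : W) (b : S) (g : E), t (om w⁻¹ * x' i * CP.sn D b g) =
      if g = i.2 then s.t (s.om (rW g w)⁻¹ * s.y' i.1 * b) else 0 := by
    intro i w b g
    have e1 : om w⁻¹ * x' i * CP.sn D b g =
        (CP.iS D (s.om w⁻¹) * ni D i.2) * (CP.iS D (s.y' i.1) * CP.sn D b g) := by
      show CP.iS D (s.om w⁻¹) * (ni D i.2 * CP.iS D (s.y' i.1)) * CP.sn D b g = _
      simp only [mul_assoc]
    rw [e1, ts, iS_sn, ← mul_assoc, sn_iS, ht, sn_ni_f, hact, hom, map_inv]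
    by_cases h : g = i.2
    · rw [if_pos h, if_pos h]
      congr 1
      ring
    · rw [if_neg h, if_neg h, map_zero]
  have t1 : ∀ a, ∑ i, ∑ w, t (om w⁻¹ * x' i * a) • (x i * om w) = a := by
    intro a
    have h0 : ∀ b g, ∑ i, ∑ w, t (om w⁻¹ * x' i * CP.sn D b g) • (x i * om w) =
        CP.sn D b g := by
      intro b g
      rw [Fintype.sum_prod_type, Finset.sum_comm, Finset.sum_eq_single g]
      · have h2 : ∀ j, ∑ w, t (om w⁻¹ * x' (j, g) * CP.sn D b g) • (x (j, g) * om w) =
            CP.sn D (∑ w, s.t (s.om w⁻¹ * s.y' j * b) • (s.y j * s.om w)) g := by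
          intro j
          rw [← Equiv.sum_comp (Equiv.ofBijective _ (hbij g))
            (fun w => s.t (s.om w⁻¹ * s.y' j * b) • (s.y j * s.om w))]
          have h3 : ∀ (κ : Type) (u : Finset κ) (f : κ → S),
              CP.sn D (∑ k ∈ u, f k) g = ∑ k ∈ u, CP.sn D (f k) g := by
            intro κ u f
            induction u using Finset.induction_on with
            | empty => rw [Finset.sum_empty, Finset.sum_empty, CP.sn_zero]
            | insert k u hk ih => rw [Finset.sum_insert hk, Finset.sum_insert hk, CP.sn_add, ih]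
          rw [h3]
          refine Finset.sum_congr rfl fun w _ => ?_
          rw [key, if_pos rfl, hx, CP.sn_smul]
          rfl
        have h4 : ∀ (κ : Type) (u : Finset κ) (f : κ → S),
            CP.sn D (∑ k ∈ u, f k) g = ∑ k ∈ u, CP.sn D (f k) g := by
          intro κ u f
          induction u using Finset.induction_on with
          | empty => rw [Finset.sum_empty, Finset.sum_empty, CP.sn_zero]
          | insert k u hk ih => rw [Finset.sum_insert hk, Finset.sum_insert hk, CP.sn_add, ih]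
        rw [Finset.sum_congr rfl fun j _ => h2 j, ← h4, s.h1]
      · intro e _ he
        refine Finset.sum_eq_zero fun j _ => Finset.sum_eq_zero fun w _ => ?_
        rw [key, if_neg (Ne.symm he), zero_smul]
      · intro h
        exact absurd (Finset.mem_univ _) h
    have h1 : ∀ i w, t (om w⁻¹ * x' i * a) • (x i * om w) =
        ∑ g, t (om w⁻¹ * x' i * CP.sn D (a.f g) g) • (x i * om w) := by
      intro i w
      conv_lhs => rw [← CP.sum_sn a]
      rw [Finset.mul_sum, map_sum, Finset.sum_smul]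
    rw [Finset.sum_congr rfl fun i _ => Finset.sum_congr rfl fun w _ => h1 i w]
    rw [Finset.sum_congr rfl fun i _ => Finset.sum_comm, Finset.sum_comm,
      Finset.sum_congr rfl fun g _ => h0 (a.f g) g, CP.sum_sn]
  refine ⟨s.J × E, inferInstance, {
    t := t
    ts := ts
    om := om
    x := x
    x' := x'
    t1 := t1
    t2 := ?_
    du := ?_
    ph := fun i => rW i.2⁻¹
    phb := fun i => hbij _
    nrm := ?_ }, fun _ => rfl, fun _ => rfl⟩
  · intro a
    have h1 := t2_of_t1 t ts (fun k : (s.J × E) × W => x k.1 * om k.2)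
      (fun k => om k.2⁻¹ * x' k.1) (fun a => by
        rw [Fintype.sum_prod_type]
        exact t1 a) a
    rw [Fintype.sum_prod_type] at h1
    exact h1
  · intro i j u v
    rw [hx, key]
    by_cases he : i.2 = j.2
    · rw [if_pos he.symm, s.du]
      by_cases h : i.1 = j.1 ∧ rW j.2 u = rW j.2 v
      · rw [if_pos h, if_pos ⟨Prod.ext h.1 he, (hbij _).1 h.2⟩]
      · rw [if_neg h, if_neg]
        rintro ⟨h1, h2⟩
        exact h ⟨by rw [h1], by rw [h2]⟩
    · rw [if_neg (Ne.symm he), if_neg]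
      rintro ⟨h1, -⟩
      exact he (by rw [h1])
  · intro i w
    rw [hx]
    show CP.iS D (s.om w) * CP.sn D (s.y i.1) i.2 = _
    rw [iS_sn, hinv, mul_comm]

end Pool.Agent.PFD.D3.H91
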